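import Mathlib
import Pool.Agent.Results.MP_d594f7_lc.CesaroRamsey

/-!
Maximal oscillation of averages along fast sequences of integers.
-/

open Filter Topology

namespace Pool.Agent.Y639.CR

variable {X : Type*}

/-- the number of the indices `i` with `h i x ≤ n` (for strictly increasing `i ↦ h i x`) -/
def cnt (h : ℕ → X → ℕ) (n : ℕ) (x : X) : ℕ :=
  ((Finset.range (n + 1)).filter (fun i => h i x ≤ n)).card

lemma cnt_eq {h : ℕ → X → ℕ} {x : X} (hm : StrictMono (fun i => h i x)) {i n : ℕ}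
    (h1 : h i x ≤ n) (h2 : n < h (i + 1) x) : cnt h n x = i + 1 := by
  unfold cnt
  have : (Finset.range (n + 1)).filter (fun i => h i x ≤ n) = Finset.range (i + 1) := by
    ext m
    simp only [Finset.mem_filter, Finset.mem_range]
    constructor
    · rintro ⟨-, h3⟩
      by_contra hcon
      have h4 : i + 1 ≤ m := by omega
      have h5 : h (i + 1) x ≤ h m x := hm.monotone h4
      omega
    · intro h3
      have h4 : h m x ≤ h i x := hm.monotone (by omega : m ≤ i)
      have h5 : m ≤ h m x := hm.id_le m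
      omega
  rw [this, Finset.card_range]

lemma continuous_cnt [TopologicalSpace X] {h : ℕ → X → ℕ} (hc : ∀ i, Continuous (h i)) (n : ℕ) :
    Continuous (cnt h n) := by
  have h1 : (cnt h n) = fun x => ∑ i ∈ Finset.range (n + 1), (if h i x ≤ n then 1 else 0) := by
    funext x
    unfold cnt
    rw [Finset.card_filter]
  rw [h1]
  refine continuous_finsetSum _ (fun i _ => ?_)
  have h2 : Continuous (fun m : ℕ => if m ≤ n then (1 : ℕ) else 0) :=
    continuous_of_discreteTopology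
  exact h2.comp (hc i)

lemma measurable_cnt [MeasurableSpace X] {h : ℕ → X → ℕ} (hc : ∀ i, Measurable (h i)) (n : ℕ) :
    Measurable (cnt h n) := by
  have h1 : (cnt h n) = fun x => ∑ i ∈ Finset.range (n + 1), (if h i x ≤ n then 1 else 0) := by
    funext x
    unfold cnt
    rw [Finset.card_filter]
  rw [h1]
  refine Finset.measurable_sum _ (fun i _ => ?_)
  have h2 : Measurable (fun m : ℕ => if m ≤ n then (1 : ℕ) else 0) := measurable_from_nat
  exact h2.comp (hc i)

/-- **Core.** -/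
theorem core_freq (h : ℕ → X → ℕ) (φ : ℕ → ℕ → ℝ) (hφ : ∀ i n, φ i n ∈ Set.Icc (0 : ℝ) 1)
    (r : ℕ → ℝ)
    (a : ℕ → ℕ → ℝ) (ha1 : ∀ k, Summable (fun j => |a k j|))
    (ha2 : ∀ j, Tendsto (fun k => a k j) atTop (𝓝 0))
    (u : ℕ → ℕ) (hu : Tendsto u atTop atTop)
    (H : ∀ i, Tendsto (fun k => ∑' j, a k j * φ i (u j)) atTop (𝓝 (r i))) :
    ∃ g : ℕ → ℕ, ∀ x, StrictMono (fun i => h i x) → ∀ t : ℝ,
      (∀ ε > 0, ∃ᶠ i in atTop, |r (i + 1) - t| < ε ∧ g (h i x) < h (i + 1) x) →
        MapClusterPt t atTop (fun k => ∑' j, a k j * φ (cnt h (u j) x) (u j)) := by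
  classical
  -- the indices `j` with `u j < b` are small
  have hJ : ∀ b : ℕ, ∃ J : ℕ, ∀ j, J ≤ j → b ≤ u j := by
    intro b
    obtain ⟨J, hJ⟩ := (hu.eventually (eventually_ge_atTop b)).exists_forall_of_atTop
    exact ⟨J, fun j hj => hJ j hj⟩
  choose J hJ using hJ
  -- the row
  have hk : ∀ b : ℕ, ∃ k : ℕ, b ≤ k ∧ (∑ j ∈ Finset.range (J b), |a k j|) < 1 / ((b : ℝ) + 1) ∧
      ∀ i ≤ b + 1, |(∑' j, a k j * φ i (u j)) - r i| < 1 / ((b : ℝ) + 1) := by
    intro b
    have hb : (0 : ℝ) < 1 / ((b : ℝ) + 1) := by positivity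
    have e1 : ∀ᶠ k in atTop, b ≤ k := eventually_ge_atTop b
    have e2 : ∀ᶠ k in atTop, (∑ j ∈ Finset.range (J b), |a k j|) < 1 / ((b : ℝ) + 1) := by
      have h1 : Tendsto (fun k => ∑ j ∈ Finset.range (J b), |a k j|) atTop
          (𝓝 (∑ j ∈ Finset.range (J b), (0 : ℝ))) := by
        refine tendsto_finsetSum _ (fun j _ => ?_)
        simpa using (ha2 j).abs
      rw [Finset.sum_const_zero] at h1
      exact h1.eventually (gt_mem_nhds hb)
    have e3 : ∀ᶠ k in atTop, ∀ i ∈ Finset.range (b + 2),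
        |(∑' j, a k j * φ i (u j)) - r i| < 1 / ((b : ℝ) + 1) := by
      rw [Filter.eventually_all_finset]
      intro i _
      have h1 := (Metric.tendsto_nhds.1 (H i)) _ hb
      filter_upwards [h1] with k hk
      rwa [Real.dist_eq] at hk
    obtain ⟨k, h1, h2, h3⟩ := (e1.and (e2.and e3)).exists
    exact ⟨k, h1, h2, fun i hi => h3 i (Finset.mem_range.2 (by omega))⟩
  choose k hkb hk1 hk2 using hk
  -- the tail
  have hL : ∀ b : ℕ, ∃ L : ℕ, (∑' j, |a (k b) (j + L)|) < 1 / ((b : ℝ) + 1) := by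
    intro b
    have hb : (0 : ℝ) < 1 / ((b : ℝ) + 1) := by positivity
    have h1 := tendsto_sum_nat_add (fun j => |a (k b) j|)
    exact (h1.eventually (gt_mem_nhds hb)).exists
  choose L hL using hL
  refine ⟨fun b => ∑ j ∈ Finset.range (L b), u j, ?_⟩
  intro x hm t ht
  -- the estimate
  have key : ∀ i, (∑ j ∈ Finset.range (L (h i x)), u j) < h (i + 1) x →
      |(∑' j, a (k (h i x)) j * φ (cnt h (u j) x) (u j)) - r (i + 1)| ≤
        3 / ((h i x : ℝ) + 1) := by
    intro i hi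
    set b := h i x with hb
    have hib : i ≤ b := hm.id_le i
    have hnext : ∀ j < L b, u j < h (i + 1) x := by
      intro j hj
      have h1 := hi
      have h2 : u j ≤ ∑ j ∈ Finset.range (L b), u j :=
        Finset.single_le_sum (f := u) (fun _ _ => Nat.zero_le _) (Finset.mem_range.2 hj)
      omega
    have hs : ∀ (ψ : ℕ → ℝ), (∀ j, |ψ j| ≤ 1) → Summable (fun j => a (k b) j * ψ j) := by
      intro ψ hψ
      refine Summable.of_norm_bounded (ha1 (k b)) (fun j => ?_)
      rw [Real.norm_eq_abs, abs_mul]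
      exact mul_le_of_le_one_right (abs_nonneg _) (hψ j)
    have hφ1 : ∀ i n, |φ i n| ≤ 1 := fun i n => by
      rw [abs_le]; constructor <;> linarith [(hφ i n).1, (hφ i n).2]
    have hd1 : ∀ i i' n, |φ i n - φ i' n| ≤ 1 := fun i i' n => by
      rw [abs_le]
      constructor <;> linarith [(hφ i n).1, (hφ i n).2, (hφ i' n).1, (hφ i' n).2]
    have hA := hs (fun j => φ (cnt h (u j) x) (u j)) (fun j => hφ1 _ _)
    have hB := hs (fun j => φ (i + 1) (u j)) (fun j => hφ1 _ _)
    have hsub : (∑' j, a (k b) j * φ (cnt h (u j) x) (u j)) -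
        (∑' j, a (k b) j * φ (i + 1) (u j)) =
        ∑' j, a (k b) j * (φ (cnt h (u j) x) (u j) - φ (i + 1) (u j)) := by
      rw [← hA.tsum_sub hB]
      refine tsum_congr (fun j => ?_)
      ring
    have hD := hs (fun j => φ (cnt h (u j) x) (u j) - φ (i + 1) (u j)) (fun j => hd1 _ _ _)
    -- termwise
    have hzero : ∀ j, J b ≤ j → j < L b →
        φ (cnt h (u j) x) (u j) - φ (i + 1) (u j) = 0 := by
      intro j h1 h2
      rw [cnt_eq hm (hJ b j h1) (hnext j h2), sub_self]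
    have hle : |∑' j, a (k b) j * (φ (cnt h (u j) x) (u j) - φ (i + 1) (u j))| ≤
        2 / ((b : ℝ) + 1) := by
      have h1 : |∑' j, a (k b) j * (φ (cnt h (u j) x) (u j) - φ (i + 1) (u j))| ≤
          ∑' j, |a (k b) j * (φ (cnt h (u j) x) (u j) - φ (i + 1) (u j))| := by
        have := norm_tsum_le_tsum_norm (f := fun j =>
          a (k b) j * (φ (cnt h (u j) x) (u j) - φ (i + 1) (u j))) hD.norm
        simpa only [Real.norm_eq_abs] using this
      have hDa : Summable (fun j =>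
          |a (k b) j * (φ (cnt h (u j) x) (u j) - φ (i + 1) (u j))|) := hD.abs
      have h2 : (∑' j, |a (k b) j * (φ (cnt h (u j) x) (u j) - φ (i + 1) (u j))|) =
          (∑ j ∈ Finset.range (L b), |a (k b) j * (φ (cnt h (u j) x) (u j) - φ (i + 1) (u j))|) +
          ∑' j, |a (k b) (j + L b) *
            (φ (cnt h (u (j + L b)) x) (u (j + L b)) - φ (i + 1) (u (j + L b)))| :=
        (hDa.sum_add_tsum_nat_add (L b)).symm
      have h3 : (∑ j ∈ Finset.range (L b),
          |a (k b) j * (φ (cnt h (u j) x) (u j) - φ (i + 1) (u j))|) ≤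
          ∑ j ∈ Finset.range (J b), |a (k b) j| := by
        calc (∑ j ∈ Finset.range (L b),
              |a (k b) j * (φ (cnt h (u j) x) (u j) - φ (i + 1) (u j))|)
            ≤ ∑ j ∈ Finset.range (L b), (if j < J b then |a (k b) j| else 0) := by
              refine Finset.sum_le_sum (fun j hj => ?_)
              rw [Finset.mem_range] at hj
              by_cases hjJ : j < J b
              · rw [if_pos hjJ, abs_mul]
                exact mul_le_of_le_one_right (abs_nonneg _) (hd1 _ _ _)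
              · rw [if_neg hjJ, hzero j (by omega) hj, mul_zero, abs_zero]
          _ = ∑ j ∈ (Finset.range (L b)).filter (fun j => j < J b), |a (k b) j| := by
              rw [Finset.sum_filter]
          _ ≤ ∑ j ∈ Finset.range (J b), |a (k b) j| := by
              refine Finset.sum_le_sum_of_subset_of_nonneg ?_ (fun _ _ _ => abs_nonneg _)
              intro j hj
              rw [Finset.mem_filter] at hj
              exact Finset.mem_range.2 hj.2
      have h4 : (∑' j, |a (k b) (j + L b) *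
            (φ (cnt h (u (j + L b)) x) (u (j + L b)) - φ (i + 1) (u (j + L b)))|) ≤
          ∑' j, |a (k b) (j + L b)| := by
        refine Summable.tsum_le_tsum (fun j => ?_) ?_ ?_
        · rw [abs_mul]
          exact mul_le_of_le_one_right (abs_nonneg _) (hd1 _ _ _)
        · exact (summable_nat_add_iff (L b)).2 hDa
        · exact (summable_nat_add_iff (L b)).2 (ha1 (k b))
      have h5 := hk1 b
      have h6 := hL b
      have h7 : (2 : ℝ) / ((b : ℝ) + 1) = 1 / ((b : ℝ) + 1) + 1 / ((b : ℝ) + 1) := by ring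
      rw [h7]
      linarith
    have h8 := hk2 b (i + 1) (by omega)
    have h9 : (3 : ℝ) / ((b : ℝ) + 1) = 2 / ((b : ℝ) + 1) + 1 / ((b : ℝ) + 1) := by ring
    rw [h9]
    calc |(∑' j, a (k b) j * φ (cnt h (u j) x) (u j)) - r (i + 1)|
        = |((∑' j, a (k b) j * φ (cnt h (u j) x) (u j)) -
            (∑' j, a (k b) j * φ (i + 1) (u j))) +
            ((∑' j, a (k b) j * φ (i + 1) (u j)) - r (i + 1))| := by ring_nf
      _ ≤ |(∑' j, a (k b) j * φ (cnt h (u j) x) (u j)) -
            (∑' j, a (k b) j * φ (i + 1) (u j))| +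
            |(∑' j, a (k b) j * φ (i + 1) (u j)) - r (i + 1)| := abs_add_le _ _
      _ ≤ 2 / ((b : ℝ) + 1) + 1 / ((b : ℝ) + 1) := by
          rw [hsub]
          linarith
  -- cluster points
  rw [mapClusterPt_iff_frequently]
  intro S hS
  obtain ⟨ε, hε, hball⟩ := Metric.mem_nhds_iff.1 hS
  rw [frequently_atTop]
  intro K
  obtain ⟨N, hN⟩ := exists_nat_gt (6 / ε)
  obtain ⟨i, hi, hri, hgi⟩ := (frequently_atTop.1 (ht (ε / 2) (by linarith))) (K + N)
  have hib : i ≤ h i x := hm.id_le i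
  refine ⟨k (h i x), le_trans (by omega) (hkb (h i x)), hball ?_⟩
  rw [Metric.mem_ball, Real.dist_eq]
  have h1 := key i hgi
  have h2 : (3 : ℝ) / ((h i x : ℝ) + 1) < ε / 2 := by
    rw [div_lt_iff₀ (by positivity)]
    have h3 : (N : ℝ) ≤ (h i x : ℝ) := by exact_mod_cast (by omega : N ≤ h i x)
    have h4 : 6 < ε * N := by
      rw [div_lt_iff₀ hε] at hN
      linarith
    nlinarith
  calc |(∑' j, a (k (h i x)) j * φ (cnt h (u j) x) (u j)) - t|
      = |((∑' j, a (k (h i x)) j * φ (cnt h (u j) x) (u j)) - r (i + 1)) + (r (i + 1) - t)| := by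
        ring_nf
    _ ≤ |(∑' j, a (k (h i x)) j * φ (cnt h (u j) x) (u j)) - r (i + 1)| + |r (i + 1) - t| :=
        abs_add_le _ _
    _ < ε := by linarith

theorem core (h : ℕ → X → ℕ) (φ : ℕ → ℕ → ℝ) (hφ : ∀ i n, φ i n ∈ Set.Icc (0 : ℝ) 1)
    (r : ℕ → ℝ) (hr : ∀ t ∈ Set.Icc (0 : ℝ) 1, ∀ ε > 0, ∀ N, ∃ i ≥ N, |r i - t| < ε)
    (a : ℕ → ℕ → ℝ) (ha1 : ∀ k, Summable (fun j => |a k j|))
    (ha2 : ∀ j, Tendsto (fun k => a k j) atTop (𝓝 0))
    (u : ℕ → ℕ) (hu : Tendsto u atTop atTop)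
    (H : ∀ i, Tendsto (fun k => ∑' j, a k j * φ i (u j)) atTop (𝓝 (r i))) :
    ∃ g : ℕ → ℕ, ∀ x, StrictMono (fun i => h i x) →
      (∀ᶠ i in atTop, g (h i x) < h (i + 1) x) → ∀ t ∈ Set.Icc (0 : ℝ) 1,
        MapClusterPt t atTop (fun k => ∑' j, a k j * φ (cnt h (u j) x) (u j)) := by
  obtain ⟨g, hg⟩ := core_freq h φ hφ r a ha1 ha2 u hu H
  refine ⟨g, fun x hm hfast t ht => hg x hm t (fun ε hε => ?_)⟩
  obtain ⟨M, hM⟩ := hfast.exists_forall_of_atTop
  rw [frequently_atTop]
  intro K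
  obtain ⟨i, hi, hri⟩ := hr t ht ε hε (M + K + 1)
  obtain ⟨i, rfl⟩ : ∃ i', i = i' + 1 := ⟨i - 1, by omega⟩
  exact ⟨i, by omega, hri, hM i (by omega)⟩

end Pool.Agent.Y639.CR
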