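import Mathlib
import Pool.Agent.Y639.CR.Core

/-!
Regular and strongly regular summation methods.
-/

open Filter Topology

namespace Pool.Agent.Y639.CR

/-- A regular summation method: a real matrix with absolutely summable rows, whose columns tend
to `0` and whose row sums tend to `1`. -/
structure Regular (a : ℕ → ℕ → ℝ) : Prop where
  summable : ∀ k, Summable (fun j => |a k j|)
  column : ∀ j, Tendsto (fun k => a k j) atTop (𝓝 0)
  row : Tendsto (fun k => ∑' j, a k j) atTop (𝓝 1)

/-- A strongly regular summation method: moreover the variation of the rows tends to `0`. -/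
structure StronglyRegular (a : ℕ → ℕ → ℝ) : Prop extends Regular a where
  variation : Tendsto (fun k => ∑' j, |a k (j + 1) - a k j|) atTop (𝓝 0)

/-- Numerators. -/
def num (i : ℕ) : ℕ := min i.unpair.1.unpair.1 (i.unpair.1.unpair.2 + 1)

/-- Denominators. -/
def den (i : ℕ) : ℕ := i.unpair.1.unpair.2 + 1

lemma den_pos (i : ℕ) : 0 < den i := Nat.succ_pos _

lemma num_le_den (i : ℕ) : num i ≤ den i := min_le_right _ _

/-- An enumeration of the rational numbers in `[0, 1]`, with infinitely many repetitions. -/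
noncomputable def rat (i : ℕ) : ℝ := (num i : ℝ) / (den i : ℝ)

lemma rat_mem (i : ℕ) : rat i ∈ Set.Icc (0 : ℝ) 1 := by
  have h1 : (0 : ℝ) < (den i : ℝ) := by exact_mod_cast den_pos i
  have h2 : (num i : ℝ) ≤ (den i : ℝ) := by exact_mod_cast num_le_den i
  exact ⟨by unfold rat; positivity, by unfold rat; rw [div_le_one h1]; exact h2⟩

lemma rat_dense (t : ℝ) (ht : t ∈ Set.Icc (0 : ℝ) 1) (ε : ℝ) (hε : 0 < ε) (N : ℕ) :
    ∃ i ≥ N, |rat i - t| < ε := by
  obtain ⟨q, hq⟩ := exists_nat_gt (1 / ε)
  have hq1 : (0 : ℝ) < (q : ℝ) + 1 := by positivity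
  set p := ⌊t * ((q : ℝ) + 1)⌋₊ with hp
  have h0 : 0 ≤ t * ((q : ℝ) + 1) := mul_nonneg ht.1 hq1.le
  have h1 : (p : ℝ) ≤ t * ((q : ℝ) + 1) := Nat.floor_le h0
  have h2 : t * ((q : ℝ) + 1) < (p : ℝ) + 1 := Nat.lt_floor_add_one _
  have h3 : p ≤ q + 1 := by
    have : (p : ℝ) ≤ (q : ℝ) + 1 := h1.trans (mul_le_of_le_one_left hq1.le ht.2)
    exact_mod_cast this
  refine ⟨Nat.pair (Nat.pair p q) N, Nat.right_le_pair _ _, ?_⟩
  have h4 : rat (Nat.pair (Nat.pair p q) N) = (p : ℝ) / ((q : ℝ) + 1) := by
    unfold rat num den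
    rw [Nat.unpair_pair, Nat.unpair_pair]
    simp only
    rw [min_eq_left h3]
    push_cast
    ring
  rw [h4]
  have h5 : |(p : ℝ) / ((q : ℝ) + 1) - t| ≤ 1 / ((q : ℝ) + 1) := by
    have e : (p : ℝ) / ((q : ℝ) + 1) - t = ((p : ℝ) - t * ((q : ℝ) + 1)) / ((q : ℝ) + 1) := by
      field_simp
    rw [e, abs_div, abs_of_pos hq1]
    apply div_le_div_of_nonneg_right _ hq1.le
    rw [abs_le]
    constructor <;> linarith
  have h6 : 1 / ((q : ℝ) + 1) < ε := by
    rw [div_lt_iff₀ hq1]
    rw [div_lt_iff₀ hε] at hq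
    nlinarith
  exact lt_of_le_of_lt h5 h6

/-- The first pattern: constants. -/
noncomputable def phi1 (i _n : ℕ) : ℝ := rat i

/-- The second pattern: periodic zero-one sequences. -/
noncomputable def phi2 (i n : ℕ) : ℝ := if n % den i < num i then 1 else 0

lemma phi2_mem (i n : ℕ) : phi2 i n ∈ Set.Icc (0 : ℝ) 1 := by
  unfold phi2
  split_ifs <;> constructor <;> norm_num

lemma H1 {a : ℕ → ℕ → ℝ} (ha : Regular a) (u : ℕ → ℕ) (i : ℕ) :
    Tendsto (fun k => ∑' j, a k j * phi1 i (u j)) atTop (𝓝 (rat i)) := by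
  have h1 : (fun k => ∑' j, a k j * phi1 i (u j)) = fun k => (∑' j, a k j) * rat i := by
    funext k
    unfold phi1
    exact tsum_mul_right
  rw [h1]
  simpa using ha.row.mul_const (rat i)

lemma summable_mul {a : ℕ → ℕ → ℝ} (ha : Regular a) (k : ℕ) (ψ : ℕ → ℝ)
    (hψ : ∀ j, |ψ j| ≤ 1) : Summable (fun j => a k j * ψ j) := by
  refine Summable.of_norm_bounded (ha.summable k) (fun j => ?_)
  rw [Real.norm_eq_abs, abs_mul]
  exact mul_le_of_le_one_right (abs_nonneg _) (hψ j)

/-- the part of the row in a residue class -/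
noncomputable def T (a : ℕ → ℕ → ℝ) (q s k : ℕ) : ℝ := ∑' j, a k j * (if j % q = s then 1 else 0)

lemma abs_ite_le (P : Prop) [Decidable P] : |(if P then (1 : ℝ) else 0)| ≤ 1 := by
  split_ifs <;> simp

lemma sum_T {a : ℕ → ℕ → ℝ} (ha : Regular a) (q p k : ℕ) :
    (∑ s ∈ Finset.range p, T a q s k) = ∑' j, a k j * (if j % q < p then 1 else 0) := by
  unfold T
  rw [← Summable.tsum_finsetSum
    (fun s _ => summable_mul ha k _ (fun j => abs_ite_le (j % q = s)))]
  refine tsum_congr (fun j => ?_)
  rw [← Finset.mul_sum, Finset.sum_ite_eq]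
  simp only [Finset.mem_range]

lemma T_step {a : ℕ → ℕ → ℝ} (ha : StronglyRegular a) {q s : ℕ} (hs : s + 1 < q) :
    Tendsto (fun k => T a q (s + 1) k - T a q s k) atTop (𝓝 0) := by
  have hmod : ∀ j, ((j + 1) % q = s + 1) ↔ (j % q = s) := by
    intro j
    have hq : 0 < q := by omega
    have h1 := Nat.mod_lt j hq
    rcases Nat.lt_or_ge (j % q + 1) q with h | h
    · have h2 : (j + 1) % q = j % q + 1 := by
        rw [Nat.add_mod, Nat.mod_eq_of_lt (by omega : 1 < q), Nat.mod_eq_of_lt h]
      omega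
    · have h3 : j % q = q - 1 := by omega
      have h2 : (j + 1) % q = 0 := by
        rw [Nat.add_mod, Nat.mod_eq_of_lt (by omega : 1 < q), h3]
        have : q - 1 + 1 = q := by omega
        rw [this, Nat.mod_self]
      omega
  refine squeeze_zero_norm (fun k => ?_) ha.variation
  have hsum := ha.summable k
  have hs0 := summable_mul ha.toRegular k _ (fun j => abs_ite_le (j % q = s + 1))
  have hs1 := summable_mul ha.toRegular k _ (fun j => abs_ite_le (j % q = s))
  have h1 : T a q (s + 1) k = ∑' j, a k (j + 1) * (if j % q = s then 1 else 0) := by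
    unfold T
    rw [hs0.tsum_eq_zero_add]
    have h2 : (0 : ℕ) % q ≠ s + 1 := by simp
    rw [if_neg h2, mul_zero, zero_add]
    refine tsum_congr (fun j => ?_)
    by_cases h : j % q = s
    · rw [if_pos ((hmod j).2 h), if_pos h]
    · rw [if_neg (fun h' => h ((hmod j).1 h')), if_neg h]
  have hs2 : Summable (fun j => a k (j + 1) * (if j % q = s then (1 : ℝ) else 0)) := by
    refine Summable.of_norm_bounded ((summable_nat_add_iff 1).2 hsum) (fun j => ?_)
    rw [Real.norm_eq_abs, abs_mul]
    exact mul_le_of_le_one_right (abs_nonneg _) (abs_ite_le _)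
  have hvar : Summable (fun j => |a k (j + 1) - a k j|) := by
    refine Summable.of_nonneg_of_le (fun _ => abs_nonneg _) (fun j => abs_sub _ _)
      (((summable_nat_add_iff 1).2 hsum).add hsum)
  have h3 : T a q (s + 1) k - T a q s k =
      ∑' j, (a k (j + 1) - a k j) * (if j % q = s then 1 else 0) := by
    rw [h1]
    unfold T
    rw [← hs2.tsum_sub hs1]
    refine tsum_congr (fun j => ?_)
    ring
  rw [h3]
  have hb : ∀ j, |(a k (j + 1) - a k j) * (if j % q = s then (1 : ℝ) else 0)| ≤
      |a k (j + 1) - a k j| := by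
    intro j
    rw [abs_mul]
    exact mul_le_of_le_one_right (abs_nonneg _) (abs_ite_le _)
  have h4 : Summable (fun j => ‖(a k (j + 1) - a k j) * (if j % q = s then (1 : ℝ) else 0)‖) :=
    Summable.of_nonneg_of_le (fun _ => norm_nonneg _) hb hvar
  exact (norm_tsum_le_tsum_norm h4).trans (Summable.tsum_le_tsum hb h4 hvar)

lemma T_lim {a : ℕ → ℕ → ℝ} (ha : StronglyRegular a) {q : ℕ} (hq : 0 < q) :
    ∀ s < q, Tendsto (T a q s) atTop (𝓝 (1 / (q : ℝ))) := by
  have hdiff : ∀ s < q, Tendsto (fun k => T a q s k - T a q 0 k) atTop (𝓝 0) := by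
    intro s
    induction s with
    | zero => intro _; simp
    | succ s ih =>
      intro hs
      have h1 := (T_step ha hs).add (ih (by omega))
      rw [add_zero] at h1
      refine h1.congr (fun k => ?_)
      ring
  have hq' : (0 : ℝ) < (q : ℝ) := by exact_mod_cast hq
  have h0 : Tendsto (T a q 0) atTop (𝓝 (1 / (q : ℝ))) := by
    have h1 : Tendsto (fun k => ∑ s ∈ Finset.range q, (T a q s k - T a q 0 k)) atTop (𝓝 0) := by
      have := tendsto_finsetSum (Finset.range q)
        (fun s hs => hdiff s (Finset.mem_range.1 hs))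
      simpa using this
    have h2 : ∀ k, T a q 0 k = ((∑' j, a k j) -
        ∑ s ∈ Finset.range q, (T a q s k - T a q 0 k)) / q := by
      intro k
      have h3 := sum_T ha.toRegular q q k
      have h4 : (∑' j, a k j * (if j % q < q then (1 : ℝ) else 0)) = ∑' j, a k j := by
        refine tsum_congr (fun j => ?_)
        rw [if_pos (Nat.mod_lt j hq), mul_one]
      rw [h4] at h3
      rw [Finset.sum_sub_distrib, h3, Finset.sum_const, Finset.card_range, nsmul_eq_mul]
      field_simp
      ring
    have h5 : Tendsto (fun k => ((∑' j, a k j) -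
        ∑ s ∈ Finset.range q, (T a q s k - T a q 0 k)) / q) atTop (𝓝 ((1 - 0) / (q : ℝ))) :=
      (ha.row.sub h1).div_const _
    rw [sub_zero] at h5
    exact h5.congr (fun k => (h2 k).symm)
  intro s hs
  have h1 := (hdiff s hs).add h0
  rw [zero_add] at h1
  refine h1.congr (fun k => ?_)
  ring

lemma H2 {a : ℕ → ℕ → ℝ} (ha : StronglyRegular a) (i : ℕ) :
    Tendsto (fun k => ∑' j, a k j * phi2 i j) atTop (𝓝 (rat i)) := by
  have h1 : (fun k => ∑' j, a k j * phi2 i j) =
      fun k => ∑ s ∈ Finset.range (num i), T a (den i) s k := by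
    funext k
    rw [sum_T ha.toRegular]
    rfl
  rw [h1]
  have h2 := tendsto_finsetSum (Finset.range (num i)) (fun s hs =>
    T_lim ha (den_pos i) s (lt_of_lt_of_le (Finset.mem_range.1 hs) (num_le_den i)))
  rw [Finset.sum_const, Finset.card_range, nsmul_eq_mul, mul_one_div] at h2
  exact h2

/-- The averages of the first `v k` terms. -/
noncomputable def ces (v : ℕ → ℕ) (k j : ℕ) : ℝ := if j < v k then 1 / (v k : ℝ) else 0

lemma ces_tsum (v : ℕ → ℕ) (k : ℕ) (ψ : ℕ → ℝ) :
    ∑' j, ces v k j * ψ j = (∑ j ∈ Finset.range (v k), ψ j) / (v k : ℝ) := by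
  rw [tsum_eq_sum (s := Finset.range (v k))]
  · rw [Finset.sum_div]
    refine Finset.sum_congr rfl (fun j hj => ?_)
    unfold ces
    rw [if_pos (Finset.mem_range.1 hj)]
    ring
  · intro j hj
    unfold ces
    rw [if_neg (fun h => hj (Finset.mem_range.2 h)), zero_mul]

lemma ces_nonneg (v : ℕ → ℕ) (k j : ℕ) : 0 ≤ ces v k j := by
  unfold ces
  split_ifs <;> positivity

lemma ces_stronglyRegular (v : ℕ → ℕ) (hv : StrictMono v) : StronglyRegular (ces v) := by
  have hvk : ∀ k, k ≤ v k := hv.id_le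
  have hinv : Tendsto (fun k => 1 / (v k : ℝ)) atTop (𝓝 0) := by
    have h1 : Tendsto (fun k => (v k : ℝ)) atTop atTop :=
      tendsto_natCast_atTop_atTop.comp hv.tendsto_atTop
    refine h1.inv_tendsto_atTop.congr (fun k => ?_)
    simp
  refine ⟨⟨fun k => ?_, fun j => ?_, ?_⟩, ?_⟩
  · refine summable_of_ne_finset_zero (s := Finset.range (v k)) (fun j hj => ?_)
    unfold ces
    rw [if_neg (fun h => hj (Finset.mem_range.2 h)), abs_zero]
  · refine squeeze_zero (fun k => ces_nonneg v k j) (fun k => ?_) hinv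
    unfold ces
    split_ifs
    · exact le_rfl
    · positivity
  · have h1 : ∀ᶠ k in atTop, ∑' j, ces v k j = 1 := by
      filter_upwards [eventually_ge_atTop 1] with k hk
      have h2 := ces_tsum v k (fun _ => 1)
      simp only [mul_one] at h2
      rw [h2, Finset.sum_const, Finset.card_range, nsmul_eq_mul, mul_one]
      have h3 : (v k : ℝ) ≠ 0 := by
        have := hvk k
        have h4 : v k ≠ 0 := by omega
        exact_mod_cast h4
      exact div_self h3
    exact (tendsto_congr' h1).2 tendsto_const_nhds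
  · refine squeeze_zero (fun k => tsum_nonneg (fun _ => abs_nonneg _)) (fun k => ?_) hinv
    rw [tsum_eq_sum (s := {v k - 1})]
    · rw [Finset.sum_singleton, abs_le]
      have hb : ∀ j, ces v k j ≤ 1 / (v k : ℝ) := by
        intro j
        unfold ces
        split_ifs
        · exact le_rfl
        · positivity
      constructor
      · linarith [ces_nonneg v k (v k - 1 + 1), hb (v k - 1)]
      · linarith [ces_nonneg v k (v k - 1), hb (v k - 1 + 1)]
    · intro j hj
      rw [Finset.mem_singleton] at hj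
      unfold ces
      rcases Nat.lt_or_ge (j + 1) (v k) with h | h
      · rw [if_pos h, if_pos (by omega : j < v k), sub_self, abs_zero]
      · rw [if_neg (by omega), if_neg (by omega), sub_self, abs_zero]

end Pool.Agent.Y639.CR
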