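import Mathlib
import Pool.Agent.Y639.CR.Methods

/-!
Maximal oscillation modulo an ideal.
-/

open Filter Topology

namespace Pool.Agent.Y639.CR

open Pool.Agent.Results.MP_d594f7_lc.CesaroRamsey

variable {X : Type*}

/-- the functions -/
noncomputable def fn (h : ℕ → X → ℕ) (n : ℕ) (x : X) : ℝ := rat (cnt h n x)

/-- the sets -/
def st (h : ℕ → X → ℕ) (n : ℕ) : Set X := {x | n % den (cnt h n x) < num (cnt h n x)}

lemma st_indicator (h : ℕ → X → ℕ) (n : ℕ) (x : X) :
    (st h n).indicator (1 : X → ℝ) x = phi2 (cnt h n x) n := by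
  unfold phi2 st
  by_cases hx : n % den (cnt h n x) < num (cnt h n x)
  · rw [Set.indicator_of_mem (by exact hx), if_pos hx]
    rfl
  · rw [Set.indicator_of_notMem (by exact hx), if_neg hx]

lemma fn_osc (h : ℕ → X → ℕ) {a : ℕ → ℕ → ℝ} (ha : Regular a) {u : ℕ → ℕ}
    (hu : Tendsto u atTop atTop) :
    ∃ g : ℕ → ℕ, ∀ x, StrictMono (fun i => h i x) →
      (∀ᶠ i in atTop, g (h i x) < h (i + 1) x) → ∀ t ∈ Set.Icc (0 : ℝ) 1,
        MapClusterPt t atTop (fun k => ∑' j, a k j * fn h (u j) x) :=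
  core h phi1 (fun i _ => rat_mem i) rat rat_dense a ha.summable ha.column u hu
    (fun i => H1 ha u i)

lemma st_osc (h : ℕ → X → ℕ) {a : ℕ → ℕ → ℝ} (ha : StronglyRegular a) :
    ∃ g : ℕ → ℕ, ∀ x, StrictMono (fun i => h i x) →
      (∀ᶠ i in atTop, g (h i x) < h (i + 1) x) → ∀ t ∈ Set.Icc (0 : ℝ) 1,
        MapClusterPt t atTop (fun k => ∑' j, a k j * (st h j).indicator 1 x) := by
  obtain ⟨g, hg⟩ := core h phi2 phi2_mem rat rat_dense a ha.summable ha.column id tendsto_id
    (fun i => H2 ha i)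
  refine ⟨g, fun x hm hf t ht => ?_⟩
  have h1 := hg x hm hf t ht
  have h2 : (fun k => ∑' j, a k j * (st h j).indicator (1 : X → ℝ) x) =
      (fun k => ∑' j, a k j * phi2 (cnt h (id j) x) (id j)) := by
    funext k
    refine tsum_congr (fun j => ?_)
    rw [st_indicator]
    rfl
  rw [h2]
  exact h1

/-! ### Ramsey null sets -/

/-- the elements of an infinite set in increasing order -/
noncomputable def el (i : ℕ) (x : InfSub) : ℕ := Nat.nth (fun n => x.1 n = true) i

lemma el_strictMono (x : InfSub) : StrictMono (fun i => el i x) := Nat.nth_strictMono x.2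

lemma el_continuous (i : ℕ) : Continuous (el i) := by
  rw [continuous_discrete_rng]
  intro m
  have h1 : el i ⁻¹' {m} = (fun x : InfSub => x.1 m) ⁻¹' {true} ∩
      (fun x : InfSub => Nat.count (fun n => x.1 n = true) m) ⁻¹' {i} := by
    ext x
    simp only [Set.mem_preimage, Set.mem_singleton_iff, Set.mem_inter_iff]
    constructor
    · intro h
      have hi := x.2
      refine ⟨?_, ?_⟩
      · rw [← h]
        exact Nat.nth_mem_of_infinite hi i
      · rw [← h]
        exact Nat.count_nth_of_infinite hi i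
    · rintro ⟨h2, h3⟩
      unfold el
      rw [← h3]
      exact Nat.nth_count h2
  rw [h1]
  refine IsOpen.inter ?_ ?_
  · exact (isOpen_discrete _).preimage ((continuous_apply m).comp continuous_subtype_val)
  · exact (isOpen_discrete _).preimage (continuous_count m)

lemma RamseyNull.mono {A B : Set InfSub} (h : A ⊆ B) (hB : RamseyNull B) : RamseyNull A := by
  intro s D hD hs
  obtain ⟨E, h1, h2, h3⟩ := hB s D hD hs
  refine ⟨E, h1, h2, ?_⟩
  rw [Set.eq_empty_iff_forall_notMem] at h3 ⊢
  exact fun x hx => h3 x ⟨hx.1, h hx.2⟩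

lemma ramseyNull_slow (g : ℕ → ℕ) :
    RamseyNull {x | ¬ ∀ᶠ i in atTop, g (el i x) < el (i + 1) x} := by
  intro s A hA _
  obtain ⟨B, hBA, hBinf, hB⟩ := exists_sparse g A hA
  refine ⟨B, hBA, hBinf, ?_⟩
  rw [Set.eq_empty_iff_forall_notMem]
  rintro x ⟨hx, hslow⟩
  apply hslow
  obtain ⟨M, hM⟩ : ∃ M, ∀ m ∈ s, m < M :=
    ⟨s.sup id + 1, fun m hm => by
      have : m ≤ s.sup id := Finset.le_sup (f := id) hm
      omega⟩
  have heB : ∀ n, M ≤ n → el n x ∈ B := by
    intro n hn
    have h1 : el n x ∈ elems x := Nat.nth_mem_of_infinite x.2 n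
    rcases hx.2.1 h1 with h | h
    · exfalso
      have h2 := hM _ h
      have h3 : n ≤ el n x := (el_strictMono x).id_le n
      omega
    · exact h
  filter_upwards [eventually_ge_atTop M] with i hi
  exact hB _ (heB i hi) _ (heB (i + 1) (by omega)) (el_strictMono x (Nat.lt_succ_self i))

/-- the whole space is not Ramsey null, in the form needed -/
lemma not_all_off {P : InfSub → Prop} (hP : RamseyNull {x | P x}) :
    ¬ ∃ N : Set InfSub, RamseyNull N ∧ ∀ x, x ∉ N → P x := by
  rintro ⟨N, hN, hconv⟩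
  obtain ⟨B, -, hBinf, hB⟩ := hP ∅ Set.univ Set.infinite_univ (by simp)
  obtain ⟨C, hCB, hCinf, hC⟩ := hN ∅ B hBinf (by simp)
  obtain ⟨x, hx⟩ := box_nonempty ∅ C hCinf (by simp)
  have hxN : x ∉ N := by
    intro h
    have : x ∈ box ∅ C ∩ N := ⟨hx, h⟩
    rw [hC] at this
    exact this
  have hxB : x ∈ box ∅ B := by
    refine ⟨hx.1, ?_, hx.2.2⟩
    intro n hn
    rcases hx.2.1 hn with h | h
    · exact Or.inl h
    · exact Or.inr (hCB h)
  have : x ∈ box ∅ B ∩ {x | P x} := ⟨hxB, hconv x hxN⟩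
  rw [hB] at this
  exact this

/-- a sequence with all points of `[0, 1]` as limit points does not converge -/
lemma osc_not_tendsto {F : ℕ → ℝ} (h : ∀ t ∈ Set.Icc (0 : ℝ) 1, MapClusterPt t atTop F) :
    ¬ ∃ L : ℝ, Tendsto F atTop (𝓝 L) := by
  rintro ⟨L, hL⟩
  have key : ∀ t ∈ Set.Icc (0 : ℝ) 1, t = L := by
    intro t ht
    have h1 := h t ht
    by_contra hne
    have hd : Disjoint (𝓝 t) (𝓝 L) := disjoint_nhds_nhds.2 hne
    have h2 : ClusterPt t (map F atTop) := h1
    have h3 : ClusterPt t (𝓝 L) := h2.mono hL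
    have h4 : (𝓝 t ⊓ 𝓝 L).NeBot := h3
    rw [disjoint_iff] at hd
    rw [hd] at h4
    exact h4.ne rfl
  have h0 := key 0 (by simp)
  have h1 := key 1 (by simp)
  linarith

/-! ### dominating reals -/

/-- the sequence of a function `d` -/
def iter (d : X → ℕ → ℕ) : ℕ → X → ℕ
  | 0, _ => 0
  | i + 1, x => iter d i x + 1 + d x (iter d i x)

lemma iter_strictMono (d : X → ℕ → ℕ) (x : X) : StrictMono (fun i => iter d i x) :=
  strictMono_nat_of_lt_succ (fun i => by
    have : iter d (i + 1) x = iter d i x + 1 + d x (iter d i x) := rfl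
    omega)

lemma iter_measurable [MeasurableSpace X] (d : X → ℕ → ℕ) (hd : ∀ n, Measurable (fun x => d x n))
    (i : ℕ) : Measurable (iter d i) := by
  induction i with
  | zero => exact measurable_const
  | succ i ih =>
    have h1 : Measurable (fun x => d x (iter d i x)) := by
      refine measurable_to_countable' (fun m => ?_)
      have h2 : (fun x => d x (iter d i x)) ⁻¹' {m} =
          ⋃ l : ℕ, (iter d i ⁻¹' {l}) ∩ ((fun x => d x l) ⁻¹' {m}) := by
        ext x
        simp
      rw [h2]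
      exact MeasurableSet.iUnion (fun l =>
        (ih (measurableSet_singleton l)).inter (hd l (measurableSet_singleton m)))
    exact (ih.add_const 1).add h1

lemma iter_fast (d : X → ℕ → ℕ) (g : ℕ → ℕ) (x : X) (h : ∀ᶠ n in atTop, g n ≤ d x n) :
    ∀ᶠ i in atTop, g (iter d i x) < iter d (i + 1) x := by
  have h1 := (iter_strictMono d x).tendsto_atTop.eventually h
  filter_upwards [h1] with i hi
  have : iter d (i + 1) x = iter d i x + 1 + d x (iter d i x) := rfl
  omega

lemma fn_measurable [MeasurableSpace X] {h : ℕ → X → ℕ} (hc : ∀ i, Measurable (h i)) (n : ℕ) :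
    Measurable (fn h n) :=
  (measurable_from_nat (f := rat)).comp (measurable_cnt hc n)

lemma st_measurable [MeasurableSpace X] {h : ℕ → X → ℕ} (hc : ∀ i, Measurable (h i)) (n : ℕ) :
    MeasurableSet (st h n) := by
  have h1 : st h n = cnt h n ⁻¹' {m | n % den m < num m} := rfl
  rw [h1]
  exact measurable_cnt hc n (by measurability)

lemma fn_continuous [TopologicalSpace X] {h : ℕ → X → ℕ} (hc : ∀ i, Continuous (h i)) (n : ℕ) :
    Continuous (fn h n) :=
  (continuous_of_discreteTopology (f := rat)).comp (continuous_cnt hc n)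

lemma st_clopen [TopologicalSpace X] {h : ℕ → X → ℕ} (hc : ∀ i, Continuous (h i)) (n : ℕ) :
    IsClopen (st h n) := by
  have h1 : st h n = cnt h n ⁻¹' {m | n % den m < num m} := rfl
  rw [h1]
  exact (isClopen_discrete _).preimage (continuous_cnt hc n)

end Pool.Agent.Y639.CR
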