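import Mathlib
import Pool.Agent.Y639.CR.Ideals

/-!
The meagre ideal.
-/

open Filter Topology

namespace Pool.Agent.Y639.CR

open Pool.Agent.Results.MP_d594f7_lc.CesaroRamsey

/-- a point with a prescribed beginning, a block and a long gap -/
def blk (x : InfSub) (n w G : ℕ) (j : ℕ) : Bool :=
  (decide (j < n) && x.1 j) || (decide (n ≤ j) && decide (j < n + w)) || decide (G ≤ j)

lemma blk_inf (x : InfSub) (n w G : ℕ) : {j | blk x n w G j = true}.Infinite := by
  refine Set.infinite_of_injective_forall_mem (f := fun j => G + j)
    (fun a b h => by simpa using h) (fun j => ?_)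
  simp [blk]

lemma blk_count1 (x : InfSub) (n w G : ℕ) (hG : n + w ≤ G) {w' : ℕ} (hw : w' ≤ w) :
    Nat.count (fun j => blk x n w G j = true) (n + w') =
      Nat.count (fun j => x.1 j = true) n + w' := by
  rw [Nat.count_add]
  congr 1
  · induction n with
    | zero => simp
    | succ n _ =>
      have : ∀ m ≤ n + 1, Nat.count (fun j => blk x (n + 1) w G j = true) m =
          Nat.count (fun j => x.1 j = true) m := by
        intro m hm
        induction m with
        | zero => simp
        | succ m ih =>
          rw [Nat.count_succ, Nat.count_succ, ih (by omega)]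
          congr 1
          have h1 : blk x (n + 1) w G m = x.1 m := by
            unfold blk
            have e1 : decide (m < n + 1) = true := decide_eq_true (by omega)
            have e2 : decide (n + 1 ≤ m) = false := decide_eq_false (by omega)
            have e3 : decide (G ≤ m) = false := decide_eq_false (by omega)
            rw [e1, e2, e3]
            simp
          rw [h1]
      exact this (n + 1) le_rfl
  · rw [Nat.count_iff_forall]
    intro m hm
    unfold blk
    have e2 : decide (n ≤ n + m) = true := decide_eq_true (by omega)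
    have e3 : decide (n + m < n + w) = true := decide_eq_true (by omega)
    rw [e2, e3]
    simp

lemma blk_count2 (x : InfSub) (n w G : ℕ) (hG : n + w ≤ G) :
    Nat.count (fun j => blk x n w G j = true) G = Nat.count (fun j => x.1 j = true) n + w := by
  obtain ⟨l, rfl⟩ := Nat.exists_eq_add_of_le hG
  rw [Nat.count_add, blk_count1 x n w (n + w + l) hG le_rfl]
  have : Nat.count (fun k => blk x n w (n + w + l) (n + w + k) = true) l = 0 := by
    rw [Nat.count_iff_forall_not]
    intro m hm
    unfold blk
    have e1 : decide (n + w + m < n) = false := decide_eq_false (by omega)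
    have e2 : decide (n + w + m < n + w) = false := decide_eq_false (by omega)
    have e3 : decide (n + w + l ≤ n + w + m) = false := decide_eq_false (by omega)
    rw [e1, e2, e3]
    simp
  rw [this, add_zero]

/-- The set of the points without long gaps at the indices of a given class. -/
def slowAt (g : ℕ → ℕ) (m M : ℕ) : Set InfSub :=
  {x | ∀ i ≥ M, (i + 1).unpair.1 = m → el (i + 1) x ≤ g (el i x)}

lemma slowAt_closed (g : ℕ → ℕ) (m M : ℕ) : IsClosed (slowAt g m M) := by
  have h1 : slowAt g m M = ⋂ i : ℕ, {x | i ≥ M → (i + 1).unpair.1 = m →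
      el (i + 1) x ≤ g (el i x)} := by
    ext x
    simp [slowAt]
  rw [h1]
  refine isClosed_iInter (fun i => ?_)
  by_cases h2 : i ≥ M ∧ (i + 1).unpair.1 = m
  · have h3 : {x : InfSub | i ≥ M → (i + 1).unpair.1 = m → el (i + 1) x ≤ g (el i x)} =
        {x | el (i + 1) x ≤ g (el i x)} := by
      ext x
      simp [h2.1, h2.2]
    rw [h3]
    exact isClosed_le (el_continuous (i + 1))
      ((continuous_of_discreteTopology (f := g)).comp (el_continuous i))
  · have h3 : {x : InfSub | i ≥ M → (i + 1).unpair.1 = m → el (i + 1) x ≤ g (el i x)} =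
        Set.univ := by
      ext x
      simp only [Set.mem_ofPred_eq, Set.mem_univ, iff_true]
      intro h4 h5
      exact absurd ⟨h4, h5⟩ h2
    rw [h3]
    exact isClosed_univ

lemma slowAt_nowhereDense (g : ℕ → ℕ) (m M : ℕ) : IsNowhereDense (slowAt g m M) := by
  rw [(slowAt_closed g m M).isNowhereDense_iff, interior_eq_empty_iff_dense_compl]
  intro x
  -- the approximating points
  let c : ℕ → ℕ := fun n => Nat.count (fun j => x.1 j = true) n
  let i : ℕ → ℕ := fun n => Nat.pair m (M + c n + 1) - 1
  have hi : ∀ n, i n + 1 = Nat.pair m (M + c n + 1) := by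
    intro n
    have := Nat.right_le_pair m (M + c n + 1)
    simp only [i]
    omega
  have hi2 : ∀ n, M + c n ≤ i n := by
    intro n
    have h1 := Nat.right_le_pair m (M + c n + 1)
    have h2 := hi n
    omega
  let w : ℕ → ℕ := fun n => i n + 1 - c n
  let G : ℕ → ℕ := fun n => g (n + (i n - c n)) + (n + w n) + 1
  let y : ℕ → InfSub := fun n => ⟨blk x n (w n) (G n), blk_inf x n (w n) (G n)⟩
  have hG : ∀ n, n + w n ≤ G n := fun n => by simp only [G]; omega
  have hel1 : ∀ n, el (i n) (y n) = n + (i n - c n) := by
    intro n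
    have h1 : Nat.count (fun j => (y n).1 j = true) (n + (i n - c n)) = i n := by
      have h2 := blk_count1 x n (w n) (G n) (hG n) (w' := i n - c n)
        (by simp only [w]; omega)
      have h3 := hi2 n
      have h4 : Nat.count (fun j => x.1 j = true) n = c n := rfl
      rw [h4] at h2
      have h5 : Nat.count (fun j => (y n).1 j = true) (n + (i n - c n)) =
          c n + (i n - c n) := h2
      omega
    have h6 : (y n).1 (n + (i n - c n)) = true := by
      show blk x n (w n) (G n) (n + (i n - c n)) = true
      unfold blk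
      have h3 := hi2 n
      have e2 : decide (n ≤ n + (i n - c n)) = true := decide_eq_true (by omega)
      have e3 : decide (n + (i n - c n) < n + w n) = true :=
        decide_eq_true (by simp only [w]; omega)
      rw [e2, e3]
      simp
    unfold el
    conv_lhs => rw [← h1]
    exact Nat.nth_count (p := fun j => (y n).1 j = true) h6
  have hel2 : ∀ n, el (i n + 1) (y n) = G n := by
    intro n
    have h1 : Nat.count (fun j => (y n).1 j = true) (G n) = i n + 1 := by
      have h2 := blk_count2 x n (w n) (G n) (hG n)
      have h3 := hi2 n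
      have h5 : Nat.count (fun j => (y n).1 j = true) (G n) = c n + w n := h2
      simp only [w] at h5
      omega
    have h6 : (y n).1 (G n) = true := by
      show blk x n (w n) (G n) (G n) = true
      unfold blk
      simp
    unfold el
    conv_lhs => rw [← h1]
    exact Nat.nth_count (p := fun j => (y n).1 j = true) h6
  have hlim : Tendsto y atTop (𝓝 x) := by
    rw [tendsto_subtype_rng, tendsto_pi_nhds]
    intro j
    refine tendsto_const_nhds.congr' ?_
    filter_upwards [eventually_gt_atTop j] with n hn
    show x.1 j = blk x n (w n) (G n) j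
    unfold blk
    have e1 : decide (j < n) = true := decide_eq_true hn
    have e2 : decide (n ≤ j) = false := decide_eq_false (by omega)
    have e3 : decide (G n ≤ j) = false := decide_eq_false (by have := hG n; omega)
    rw [e1, e2, e3]
    simp
  refine mem_closure_of_tendsto hlim (Filter.Eventually.of_forall (fun n => ?_))
  intro hmem
  have h1 := hmem (i n) (by have := hi2 n; omega) (by rw [hi n, Nat.unpair_pair])
  rw [hel1, hel2] at h1
  simp only [G] at h1
  omega

lemma meagre_slow (g : ℕ → ℕ) :
    IsMeagre {x : InfSub | ∃ m, ¬ ∃ᶠ i in atTop, (i + 1).unpair.1 = m ∧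
      g (el i x) < el (i + 1) x} := by
  have h1 : {x : InfSub | ∃ m, ¬ ∃ᶠ i in atTop, (i + 1).unpair.1 = m ∧
      g (el i x) < el (i + 1) x} ⊆ ⋃ m : ℕ, ⋃ M : ℕ, slowAt g m M := by
    rintro x ⟨m, hx⟩
    rw [not_frequently] at hx
    obtain ⟨M, hM⟩ := hx.exists_forall_of_atTop
    refine Set.mem_iUnion.2 ⟨m, Set.mem_iUnion.2 ⟨M, fun i hi hm => ?_⟩⟩
    have := hM i hi
    by_contra hcon
    exact this ⟨hm, by omega⟩
  exact (isMeagre_iUnion (fun m => isMeagre_iUnion (fun M =>
    (slowAt_nowhereDense g m M).isMeagre))).mono h1

/-- in a point outside the meagre set, all values are approximated at long gaps -/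
lemma freq_of_not_slow {g : ℕ → ℕ} {x : InfSub}
    (hx : ¬ ∃ m, ¬ ∃ᶠ i in atTop, (i + 1).unpair.1 = m ∧ g (el i x) < el (i + 1) x)
    (t : ℝ) (ht : t ∈ Set.Icc (0 : ℝ) 1) (ε : ℝ) (hε : 0 < ε) :
    ∃ᶠ i in atTop, |rat (i + 1) - t| < ε ∧ g (el i x) < el (i + 1) x := by
  obtain ⟨j, -, hj⟩ := rat_dense t ht ε hε 0
  have h1 : ∃ᶠ i in atTop, (i + 1).unpair.1 = j.unpair.1 ∧ g (el i x) < el (i + 1) x := by
    by_contra hcon
    exact hx ⟨_, hcon⟩
  refine h1.mono (fun i hi => ⟨?_, hi.2⟩)
  have h2 : rat (i + 1) = rat j := by
    unfold rat num den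
    rw [hi.1]
  rw [h2]
  exact hj

end Pool.Agent.Y639.CR
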